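import Mathlib

/-!
# Integral of a concave function over a triangle of the plane, from below
-/

set_option autoImplicit false
open MeasureTheory Set

namespace Pool.Agent.Helper32.R2

/-- The open standard triangle. -/
def std : Set (ℝ × ℝ) := {p | 0 < p.1 ∧ 0 < p.2 ∧ p.1 + p.2 < 1}

/-- The affine map sending the vertices of the standard triangle to `a, b, c`. -/
def tri (a b c : ℝ × ℝ) (p : ℝ × ℝ) : ℝ × ℝ :=
  a + (((b.1 - a.1) * p.1 + (c.1 - a.1) * p.2, (b.2 - a.2) * p.1 + (c.2 - a.2) * p.2) : ℝ × ℝ)

/-- Twice the signed area. -/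
def dt (a b c : ℝ × ℝ) : ℝ := (b.1 - a.1) * (c.2 - a.2) - (c.1 - a.1) * (b.2 - a.2)

lemma isOpen_std32 : IsOpen std := by
  have h : std = {p : ℝ × ℝ | 0 < p.1} ∩ ({p : ℝ × ℝ | 0 < p.2} ∩ {p : ℝ × ℝ | p.1 + p.2 < 1}) := by
    ext p; simp [std]
  rw [h]
  exact (isOpen_lt continuous_const continuous_fst).inter
    ((isOpen_lt continuous_const continuous_snd).inter
      (isOpen_lt (continuous_fst.add continuous_snd) continuous_const))

lemma lint_tri32 (a b c : ℝ × ℝ) (hd : dt a b c ≠ 0) (g : ℝ × ℝ → ENNReal) :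
    ∫⁻ x in tri a b c '' std, g x = ∫⁻ p in std, ENNReal.ofReal |dt a b c| * g (tri a b c p) := by
  obtain ⟨M, hM⟩ : ∃ M : (ℝ × ℝ) →ₗ[ℝ] (ℝ × ℝ), M = Matrix.toLin (Module.Basis.finTwoProd ℝ) (Module.Basis.finTwoProd ℝ)
    !![b.1 - a.1, c.1 - a.1; b.2 - a.2, c.2 - a.2] := ⟨_, rfl⟩
  have hdet : (LinearMap.toContinuousLinearMap M).det = dt a b c := by
    rw [LinearMap.det_toContinuousLinearMap, hM, LinearMap.det_toLin, Matrix.det_fin_two]
    simp [dt]
  have hval : ∀ p, tri a b c p = a + M p := by
    intro p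
    rw [hM, Matrix.toLin_finTwoProd_apply]
    rfl
  have hinj : Function.Injective (tri a b c) := by
    intro p q h
    rw [hval, hval, add_right_inj] at h
    have hu : IsUnit (LinearMap.det M) := by
      have : LinearMap.det M = dt a b c := by rw [← hdet, LinearMap.det_toContinuousLinearMap]
      rw [this]
      exact isUnit_iff_ne_zero.2 hd
    exact (LinearEquiv.ofIsUnitDet (f := M) (v := Module.Basis.finTwoProd ℝ) (v' := Module.Basis.finTwoProd ℝ)
      (by rwa [LinearMap.det_toMatrix])).injective h
  have h := lintegral_image_eq_lintegral_abs_det_fderiv_mul (volume : Measure (ℝ × ℝ)) (s := std)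
    (f := tri a b c) (f' := fun _ => LinearMap.toContinuousLinearMap M) isOpen_std32.measurableSet
    (fun x _ => by
      have h1 : HasFDerivAt (fun p => a + (LinearMap.toContinuousLinearMap M) p)
          (LinearMap.toContinuousLinearMap M) x :=
        ((LinearMap.toContinuousLinearMap M).hasFDerivAt).const_add a
      have h2 : tri a b c = fun p => a + (LinearMap.toContinuousLinearMap M) p := by
        funext p; rw [hval]; rfl
      rw [h2]
      exact h1.hasFDerivWithinAt) (hinj.injOn) g
  rw [h, hdet]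

/-- The integral of an affine function over the standard triangle. -/
lemma lint_std32 {A B C : ℝ} (hA : 0 ≤ A) (hB : 0 ≤ B) (hC : 0 ≤ C) :
    ∫⁻ p in std, ENNReal.ofReal ((1 - p.1 - p.2) * A + p.1 * B + p.2 * C) =
      ENNReal.ofReal ((A + B + C) / 6) := by
  have hmeas : Measurable fun p : ℝ × ℝ => ENNReal.ofReal ((1 - p.1 - p.2) * A + p.1 * B + p.2 * C) := by
    fun_prop
  rw [← lintegral_indicator isOpen_std32.measurableSet]
  rw [Measure.volume_eq_prod, lintegral_prod _ (hmeas.indicator isOpen_std32.measurableSet).aemeasurable]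
  have hin : ∀ x : ℝ, ∫⁻ y, std.indicator (fun p : ℝ × ℝ =>
      ENNReal.ofReal ((1 - p.1 - p.2) * A + p.1 * B + p.2 * C)) (x, y) =
      (Ioo (0:ℝ) 1).indicator (fun x => ENNReal.ofReal ((1 - x) ^ 2 / 2 * (A + C) + x * (1 - x) * B)) x := by
    intro x
    by_cases hx : x ∈ Ioo (0:ℝ) 1
    · rw [indicator_of_mem hx]
      have e1 : (fun y => std.indicator (fun p : ℝ × ℝ =>
          ENNReal.ofReal ((1 - p.1 - p.2) * A + p.1 * B + p.2 * C)) (x, y)) =
          (Ioo (0:ℝ) (1 - x)).indicator fun y => ENNReal.ofReal ((1 - x - y) * A + x * B + y * C) := by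
        funext y
        by_cases hy : y ∈ Ioo (0:ℝ) (1 - x)
        · rw [indicator_of_mem hy, indicator_of_mem]
          exact ⟨hx.1, hy.1, by have := hy.2; simp only; linarith⟩
        · rw [indicator_of_notMem hy, indicator_of_notMem]
          intro h
          exact hy ⟨h.2.1, by have := h.2.2; simp only at this; linarith⟩
      rw [e1, lintegral_indicator measurableSet_Ioo, restrict_Ioo_eq_restrict_Ioc]
      have hx1 : 0 ≤ 1 - x := by linarith [hx.2]
      have hx0 := hx.1.le
      rw [← ofReal_integral_eq_lintegral_ofReal]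
      · rw [← intervalIntegral.integral_of_le hx1]
        congr 1
        have e2 : ∀ y : ℝ, (1 - x - y) * A + x * B + y * C = ((1 - x) * A + x * B) + (C - A) * y := by
          intro y; ring
        simp_rw [e2]
        rw [intervalIntegral.integral_add (by simp) (by
          apply Continuous.intervalIntegrable; fun_prop), intervalIntegral.integral_const,
          intervalIntegral.integral_const_mul, integral_id]
        simp only [smul_eq_mul, sub_zero]
        ring
      · apply Continuous.integrableOn_Ioc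
        fun_prop
      · rw [Filter.EventuallyLE, ae_restrict_iff' measurableSet_Ioc]
        refine Filter.Eventually.of_forall fun y hy => ?_
        have h1 : 0 ≤ 1 - x - y := by linarith [hy.2]
        have h2 := hy.1.le
        simp only [Pi.zero_apply]
        positivity
    · rw [indicator_of_notMem hx]
      have e1 : (fun y => std.indicator (fun p : ℝ × ℝ =>
          ENNReal.ofReal ((1 - p.1 - p.2) * A + p.1 * B + p.2 * C)) (x, y)) = fun _ => 0 := by
        funext y
        rw [indicator_of_notMem]
        intro h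
        exact hx ⟨h.1, by have := h.2.2; have := h.2.1; simp only at *; linarith⟩
      rw [e1, lintegral_zero]
  simp_rw [hin]
  rw [lintegral_indicator measurableSet_Ioo, restrict_Ioo_eq_restrict_Ioc, ← ofReal_integral_eq_lintegral_ofReal]
  · rw [← intervalIntegral.integral_of_le zero_le_one]
    congr 1
    have e2 : ∀ x : ℝ, (1 - x) ^ 2 / 2 * (A + C) + x * (1 - x) * B =
        (A + C) / 2 + (B - (A + C)) * x + ((A + C) / 2 - B) * x ^ 2 := by
      intro x; ring
    simp_rw [e2]
    rw [intervalIntegral.integral_add (by apply Continuous.intervalIntegrable; fun_prop) (by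
        apply Continuous.intervalIntegrable; fun_prop),
      intervalIntegral.integral_add (by simp) (by apply Continuous.intervalIntegrable; fun_prop),
      intervalIntegral.integral_const, intervalIntegral.integral_const_mul, intervalIntegral.integral_const_mul,
      integral_id, integral_pow]
    simp only [smul_eq_mul]
    norm_num
    ring
  · apply Continuous.integrableOn_Ioc
    fun_prop
  · rw [Filter.EventuallyLE, ae_restrict_iff' measurableSet_Ioc]
    refine Filter.Eventually.of_forall fun y hy => ?_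
    have h1 : 0 ≤ 1 - y := by linarith [hy.2]
    have h2 := hy.1.le
    simp only [Pi.zero_apply]
    positivity

/-- A concave function on a triangle has integral at least the area times the mean of its values at the vertices. -/
theorem tri_le {D : Set (ℝ × ℝ)} {g : ℝ × ℝ → ℝ} (hg : ConcaveOn ℝ D g) {a b c : ℝ × ℝ}
    (ha : a ∈ D) (hb : b ∈ D) (hc : c ∈ D) (ga : 0 ≤ g a) (gb : 0 ≤ g b) (gc : 0 ≤ g c) (hd : dt a b c ≠ 0) :
    ENNReal.ofReal (|dt a b c| * (g a + g b + g c) / 6) ≤
      ∫⁻ x in tri a b c '' std, ENNReal.ofReal (g x) := by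
  rw [lint_tri32 a b c hd, lintegral_const_mul' _ _ ENNReal.ofReal_ne_top, mul_div_assoc,
    ENNReal.ofReal_mul (abs_nonneg _), ← lint_std32 ga gb gc]
  refine mul_le_mul_right ?_ _
  refine setLIntegral_mono' isOpen_std32.measurableSet fun p hp => ?_
  apply ENNReal.ofReal_le_ofReal
  obtain ⟨h1, h2, h3⟩ := hp
  -- concavity for three points
  have e : tri a b c p = (1 - p.1 - p.2) • a + p.1 • b + p.2 • c := by
    ext <;> simp [tri] <;> ring
  rw [e]
  have hs : 0 < 1 - p.1 := by linarith
  have hw : 0 ≤ (1 - p.1 - p.2) / (1 - p.1) := div_nonneg (by linarith) hs.le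
  have hw2 : 0 ≤ p.2 / (1 - p.1) := div_nonneg h2.le hs.le
  have hsum : (1 - p.1 - p.2) / (1 - p.1) + p.2 / (1 - p.1) = 1 := by field_simp; ring
  have hm : ((1 - p.1 - p.2) / (1 - p.1)) • a + (p.2 / (1 - p.1)) • c ∈ D := hg.1 ha hc hw hw2 hsum
  have k1 := hg.2 ha hc hw hw2 hsum
  have k2 := hg.2 hm hb hs.le h1.le (by ring)
  have e3 : (1 - p.1) • (((1 - p.1 - p.2) / (1 - p.1)) • a + (p.2 / (1 - p.1)) • c) + p.1 • b =
      (1 - p.1 - p.2) • a + p.1 • b + p.2 • c := by
    rw [smul_add, smul_smul, smul_smul, mul_div_cancel₀ _ hs.ne', mul_div_cancel₀ _ hs.ne']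
    abel
  rw [e3] at k2
  simp only [smul_eq_mul] at k1 k2
  have k3 : (1 - p.1) * ((1 - p.1 - p.2) / (1 - p.1) * g a + p.2 / (1 - p.1) * g c) =
      (1 - p.1 - p.2) * g a + p.2 * g c := by
    field_simp
  have k4 := mul_le_mul_of_nonneg_left k1 hs.le
  rw [k3] at k4
  linarith

end Pool.Agent.Helper32.R2
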